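import Pool.Agent.H37.CNV.Stmts
import Pool.Agent.H90.CNY.Stmts

/-!
# Board cnv, row TAM (from the rows `YLO`, `YLM` of the board cny)
-/

set_option autoImplicit false

namespace Pool.CND

open Finset

theorem tam_thm (hYLO : S_YLO) (hYLM : S_YLM) (hCON : S_CON) (hINB : S_INB) : S_TAM := by
  intro p k G _ _ _ c hp hk hc
  classical
  haveI : Fintype G := Fintype.ofFinite G
  obtain ⟨L, i1, i2, ρ, t, hcov, P, hPt, hcon⟩ := hc
  rcases hYLO p k L G P ρ c hp hk hcov.inj hcon with h0 | ⟨W, I, C, l0, hW, hI, hC, hl0, hl1, hD⟩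
  · exact Or.inl h0
  rcases hCON k L G P ρ W I c hcov.inj hW hI hcon with h0 | ⟨l, hl, hcU⟩
  · exact Or.inl h0
  right
  obtain ⟨n, hn, hIn⟩ := hD.cardI
  refine ⟨W, I, C, n, hD.CW, hD.WI, hD.ne, hD.cardW, hD.nrmW, hD.nrmC, hD.cen, hn, hIn, ?_⟩
  intro A d r hAW hAc hAd hYC
  have hcardW : 0 < Nat.card W := Nat.card_pos
  have hWq : (Nat.card W : ℚ) ≠ 0 := by exact_mod_cast hcardW.ne'
  have hnU : (n : ℚ) * c = U (fun g => P.b (ρ g)) W l := by
    rw [hIn, Nat.cast_mul] at hcU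
    have h1 : (Nat.card W : ℚ) * ((n : ℚ) * c) = Nat.card W * U (fun g => P.b (ρ g)) W l := by
      rw [← hcU]; ring
    exact mul_left_cancel₀ hWq h1
  obtain ⟨z, hz⟩ := hINB p k L G P ρ W W A d l hp hk hcov.inj hW le_rfl hAW hD.cardW hAc hAd hl
  obtain ⟨j, z', hz'⟩ := (hD.den r).1 hYC
  refine hYLM p n r d j c z z' hp hn ?_ ?_
  · rw [← hz, ← hnU]
    push_cast
    ring
  · rw [← hz']
    push_cast
    ring

end Pool.CND
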